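import Pool.Agent.R627.AC.Stm

/-!
Piece AC4: injectivity of the dominant.
-/
namespace Pool.Agent.R1.AC

open Metric Complex Pool.Agent.R627.AC

theorem key (α : ℝ) (Q : ℂ → ℂ) (hα : 0 < α) (h : Dom α Q) (h0 : 0 < (deriv Q 0).re)
    (hN : ∀ z ∈ ball (0:ℂ) 1, z ≠ 0 →
      0 < ((((1 + z) / (1 - z)) - Q z) * (1 - z) ^ 2 / z).re) (z : ℂ) (hz : z ∈ ball (0:ℂ) 1) :
    0 < (deriv Q z / Q z * (1 - z) ^ 2).re := by
  by_cases hz0 : z = 0
  · subst hz0
    rw [h.zero]
    simpa using h0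
  · have hQ : Q z ≠ 0 := by
      intro hh
      have := h.pos z hz
      rw [hh] at this
      simp at this
    have hαc : (α : ℂ) ≠ 0 := by exact_mod_cast hα.ne'
    have hode := h.ode z hz
    have e : deriv Q z / Q z * (1 - z) ^ 2 =
        ((α⁻¹ : ℝ) : ℂ) * ((((1 + z) / (1 - z)) - Q z) * (1 - z) ^ 2 / z) := by
      have e1 : deriv Q z / Q z = (((1 + z) / (1 - z)) - Q z) / ((α : ℂ) * z) := by
        rw [div_eq_div_iff hQ (mul_ne_zero hαc hz0)]
        rw [mul_comm, hode]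
        ring
      rw [e1, ofReal_inv]
      rw [div_mul_eq_mul_div, mul_div_assoc', inv_mul_eq_div, div_div]
    rw [e, re_ofReal_mul]
    exact mul_pos (inv_pos.mpr hα) (hN z hz hz0)

theorem T_mem {ζ : ℂ} (h : 0 < ζ.re) : (ζ - 1) / (ζ + 1) ∈ ball (0:ℂ) 1 := by
  have h1 : ζ + 1 ≠ 0 := by
    intro hh
    have := congrArg Complex.re hh
    simp at this
    linarith
  rw [mem_ball_zero_iff, norm_div, div_lt_one (norm_pos_iff.mpr h1)]
  apply lt_of_pow_lt_pow_left₀ 2 (norm_nonneg _)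
  rw [Complex.sq_norm, Complex.sq_norm, Complex.normSq_apply, Complex.normSq_apply]
  simp
  nlinarith

theorem T_inv {z : ℂ} (hz : z ∈ ball (0:ℂ) 1) :
    0 < ((1 + z) / (1 - z)).re ∧ ((1 + z) / (1 - z) - 1) / ((1 + z) / (1 - z) + 1) = z := by
  have hz1 : 1 - z ≠ 0 := by
    intro hh
    have : z = 1 := (sub_eq_zero.mp hh).symm
    rw [this] at hz
    simp at hz
  constructor
  · rw [mem_ball_zero_iff] at hz
    have hsq : ‖z‖ ^ 2 < 1 := by
      have := norm_nonneg z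
      nlinarith
    rw [Complex.sq_norm, Complex.normSq_apply] at hsq
    rw [Complex.div_re]
    rw [← add_div]
    apply div_pos _ (Complex.normSq_pos.mpr hz1)
    simp
    nlinarith
  · field_simp
    ring

theorem hasDerivAt_T {ζ : ℂ} (h : 0 < ζ.re) :
    HasDerivAt (fun ζ : ℂ => (ζ - 1) / (ζ + 1)) (2 / (ζ + 1) ^ 2) ζ := by
  have h1 : ζ + 1 ≠ 0 := by
    intro hh
    have := congrArg Complex.re hh
    simp at this
    linarith
  have := ((hasDerivAt_id ζ).sub_const 1).div ((hasDerivAt_id ζ).add_const 1) h1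
  refine this.congr_deriv ?_
  simp only [id]
  congr 1
  ring

end Pool.Agent.R1.AC

namespace Pool.Agent.R627.AC

open Metric Complex Pool.Agent.R1.AC

theorem inj_q : StInj := by
  intro α Q hα h h0 hN
  have hkey := key α Q hα h h0 hN
  have hQ : ∀ z ∈ ball (0:ℂ) 1, Q z ≠ 0 := by
    intro z hz hh
    have := h.pos z hz
    rw [hh] at this
    simp at this
  refine ⟨?_, ?_⟩
  · intro z₁ hz₁ z₂ hz₂ hQQ
    by_contra hne
    obtain ⟨hp1, hi1⟩ := T_inv hz₁
    obtain ⟨hp2, hi2⟩ := T_inv hz₂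
    set ζ₁ := (1 + z₁) / (1 - z₁) with hζ₁
    set ζ₂ := (1 + z₂) / (1 - z₂) with hζ₂
    set w := ζ₂ - ζ₁ with hw
    have hw0 : w ≠ 0 := by
      intro hh
      have : ζ₂ = ζ₁ := sub_eq_zero.mp hh
      apply hne
      rw [← hi1, ← hi2, this]
    -- the path
    have hre : ∀ t : ℝ, 0 ≤ t → t ≤ 1 → 0 < (ζ₁ + (t : ℂ) * w).re := by
      intro t ht0 ht1
      have e : (ζ₁ + (t : ℂ) * w).re = (1 - t) * ζ₁.re + t * ζ₂.re := by
        rw [add_re, re_ofReal_mul, hw, sub_re]; ring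
      rw [e]
      rcases eq_or_lt_of_le ht0 with h00 | h00
      · rw [← h00]; simpa using hp1
      · have : 0 < t * ζ₂.re := mul_pos h00 hp2
        have : 0 ≤ (1 - t) * ζ₁.re := mul_nonneg (by linarith) hp1.le
        linarith
    let G : ℂ → ℂ := fun ζ => Complex.log (Q ((ζ - 1) / (ζ + 1)))
    have hG : ∀ ζ : ℂ, 0 < ζ.re → ∃ d : ℂ, HasDerivAt G d ζ ∧ 0 < d.re := by
      intro ζ hζ
      have hT := T_mem hζ
      have hQd : HasDerivAt Q (deriv Q ((ζ - 1) / (ζ + 1))) ((ζ - 1) / (ζ + 1)) :=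
        (h.an.differentiableAt (isOpen_ball.mem_nhds hT)).hasDerivAt
      have hc := hQd.comp ζ (hasDerivAt_T hζ)
      have hl := hc.clog (Or.inl (h.pos _ hT))
      refine ⟨_, hl, ?_⟩
      have h1 : ζ + 1 ≠ 0 := by
        intro hh
        have := congrArg Complex.re hh
        simp at this
        linarith
      have hk := hkey _ hT
      have e : (1 - (ζ - 1) / (ζ + 1)) ^ 2 = 2 * (2 / (ζ + 1) ^ 2) := by
        field_simp
        ring
      rw [e] at hk
      have e2 : deriv Q ((ζ - 1) / (ζ + 1)) * (2 / (ζ + 1) ^ 2) / (Q ∘ fun ζ => (ζ - 1) / (ζ + 1)) ζ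
          = ((1 / 2 : ℝ) : ℂ) * (deriv Q ((ζ - 1) / (ζ + 1)) / Q ((ζ - 1) / (ζ + 1)) *
            (2 * (2 / (ζ + 1) ^ 2))) := by
        have hQz := hQ _ hT
        simp only [Function.comp]
        push_cast
        field_simp
      rw [e2, re_ofReal_mul]
      exact mul_pos (by norm_num) hk
    let φ : ℝ → ℝ := fun t => ((starRingEnd ℂ) w * G (ζ₁ + (t : ℂ) * w)).re
    have hφ : ∀ t : ℝ, 0 ≤ t → t ≤ 1 → ∃ d : ℝ, HasDerivAt φ d t ∧ 0 < d := by
      intro t ht0 ht1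
      obtain ⟨d, hd, hdp⟩ := hG _ (hre t ht0 ht1)
      have hpath : HasDerivAt (fun t : ℝ => ζ₁ + (t : ℂ) * w) w t := by
        have := ((Complex.ofRealCLM.hasDerivAt (x := t)).mul_const w).const_add ζ₁
        simpa using this
      have hcomp0 := HasDerivAt.comp (h₂ := G) (h := fun t : ℝ => ζ₁ + (t : ℂ) * w) t hd hpath
      have hcomp : HasDerivAt (fun t : ℝ => G (ζ₁ + (t : ℂ) * w)) (d * w) t := hcomp0
      have h2 := hcomp.const_mul ((starRingEnd ℂ) w)
      have h3 := (Complex.reCLM.hasFDerivAt).comp_hasDerivAt t h2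
      refine ⟨_, h3, ?_⟩
      have e : (starRingEnd ℂ) w * (d * w) = ((Complex.normSq w : ℝ) : ℂ) * d := by
        rw [Complex.normSq_eq_conj_mul_self]; ring
      rw [e]
      simp only [Complex.reCLM_apply, re_ofReal_mul]
      exact mul_pos (Complex.normSq_pos.mpr hw0) hdp
    choose! φ' hφ' using hφ
    obtain ⟨c, hc, hc'⟩ := exists_hasDerivAt_eq_slope φ φ' (zero_lt_one)
      (fun t ht => (hφ' t ht.1 ht.2).1.continuousAt.continuousWithinAt)
      (fun t ht => (hφ' t ht.1.le ht.2.le).1)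
    have hpos := (hφ' c hc.1.le hc.2.le).2
    rw [hc'] at hpos
    have e0 : φ 0 = φ 1 := by
      simp only [φ, G]
      congr 3
      have a0 : ζ₁ + ((0:ℝ) : ℂ) * w = ζ₁ := by simp
      have a1 : ζ₁ + ((1:ℝ) : ℂ) * w = ζ₂ := by simp [hw]
      rw [a0, a1, hi1, hi2, hQQ]
    rw [e0] at hpos
    simp at hpos
  · intro z hz hd
    have := hkey z hz
    rw [hd] at this
    simp at this

end Pool.Agent.R627.AC
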